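import Mathlib

/-!
# Tensor products over algebraically closed fields (copied from the library, `H920R2/Cu10`)
-/

set_option autoImplicit false

open MvPolynomial TensorProduct

universe u v

namespace Pool.Agent.Helper57.TU.Dom

section dom

variable {k : Type u} [Field k] [IsAlgClosed k]

/-- The points of an affine variety over an algebraically closed field are dense. -/
lemma exists_point {A : Type u} [CommRing A] [IsDomain A] [Algebra k A]
    [Algebra.FiniteType k A] {c : A} (hc : c ≠ 0) : ∃ φ : A →ₐ[k] k, φ c ≠ 0 := by
  let D := Localization.Away c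
  have hnt : Nontrivial D := by
    have : IsDomain D := IsLocalization.isDomain_localization
      (powers_le_nonZeroDivisors_of_noZeroDivisors hc)
    infer_instance
  have hftD : Algebra.FiniteType k D := by
    have h1 : Algebra.FiniteType A D :=
      IsLocalization.finiteType_of_monoid_fg (Submonoid.powers c) D
    exact Algebra.FiniteType.trans inferInstance h1
  obtain ⟨M, hM⟩ := Ideal.exists_maximal D
  let _ : Field (D ⧸ M) := Ideal.Quotient.field M
  have hfin : Module.Finite k (D ⧸ M) := finite_of_finite_type_of_isJacobsonRing k (D ⧸ M)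
  have hbij : Function.Bijective (algebraMap k (D ⧸ M)) :=
    IsAlgClosed.algebraMap_bijective_of_isIntegral
  let e : k ≃ₐ[k] (D ⧸ M) := AlgEquiv.ofBijective (Algebra.ofId k (D ⧸ M)) hbij
  let φ : A →ₐ[k] k := (e.symm : (D ⧸ M) →ₐ[k] k).comp
    ((Ideal.Quotient.mkₐ k M).comp (IsScalarTower.toAlgHom k A D))
  refine ⟨φ, ?_⟩
  have hu : IsUnit (algebraMap A D c) :=
    IsLocalization.map_units D (⟨c, Submonoid.mem_powers c⟩ : Submonoid.powers c)
  have h1 : IsUnit (φ c) := hu.map ((e.symm : (D ⧸ M) →ₐ[k] k).comp (Ideal.Quotient.mkₐ k M))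
  exact h1.ne_zero

/-- The product of two affine varieties over an algebraically closed field is integral. -/
theorem isDomain_tensor {A A' : Type u} [CommRing A] [IsDomain A] [Algebra k A]
    [Algebra.FiniteType k A] [CommRing A'] [IsDomain A'] [Algebra k A'] :
    IsDomain (A ⊗[k] A') := by
  classical
  let b := Module.Basis.ofVectorSpace k A'
  let bA := Algebra.TensorProduct.basis A b
  have hnt : Nontrivial (A ⊗[k] A') := by
    obtain ⟨φ, -⟩ := exists_point (k := k) (one_ne_zero (α := A))
    let e : A ⊗[k] A' →ₐ[k] A' := Algebra.TensorProduct.lift ((Algebra.ofId k A').comp φ)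
      (AlgHom.id k A') (fun _ _ => Commute.all _ _)
    exact e.toRingHom.domain_nontrivial
  have hnz : NoZeroDivisors (A ⊗[k] A') := by
    constructor
    intro x y hxy
    by_contra hcon
    push Not at hcon
    obtain ⟨hx, hy⟩ := hcon
    obtain ⟨i, hi⟩ : ∃ i, bA.repr x i ≠ 0 := by
      by_contra h
      push Not at h
      apply hx
      apply bA.repr.injective
      rw [map_zero]
      ext i
      exact h i
    obtain ⟨l, hl⟩ : ∃ i, bA.repr y i ≠ 0 := by
      by_contra h
      push Not at h
      apply hy
      apply bA.repr.injective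
      rw [map_zero]
      ext i
      exact h i
    obtain ⟨φ, hφ⟩ := exists_point (k := k) (mul_ne_zero hi hl)
    rw [map_mul] at hφ
    let e : A ⊗[k] A' →ₐ[k] A' := Algebra.TensorProduct.lift ((Algebra.ofId k A').comp φ)
      (AlgHom.id k A') (fun _ _ => Commute.all _ _)
    have he : ∀ z i, b.repr (e z) i = φ (bA.repr z i) := by
      intro z i
      induction z using TensorProduct.induction_on with
      | zero => simp
      | tmul a a' =>
        rw [Algebra.TensorProduct.basis_repr_tmul]
        have h1 : e (a ⊗ₜ a') = φ a • a' := by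
          rw [Algebra.TensorProduct.lift_tmul, Algebra.smul_def]
          rfl
        rw [h1, map_smul, Finsupp.smul_apply, Finsupp.smul_apply, Finsupp.mapRange_apply,
          smul_eq_mul, smul_eq_mul, map_mul, AlgHom.commutes]
        rfl
      | add z z' hz hz' =>
        rw [map_add, map_add, map_add, Finsupp.add_apply, Finsupp.add_apply, map_add, hz, hz']
    have h1 : e x * e y = 0 := by rw [← map_mul, hxy, map_zero]
    rcases mul_eq_zero.1 h1 with h2 | h2
    · apply hφ
      rw [← he x i, h2, map_zero, Finsupp.zero_apply, zero_mul]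
    · apply hφ
      rw [← he y l, h2, map_zero, Finsupp.zero_apply, mul_zero]
  exact NoZeroDivisors.to_isDomain _

end dom

end Pool.Agent.Helper57.TU.Dom
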