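import Pool.Agent.Helper78.EC.QnH
import Pool.Agent.Helper57.NT.Sheet

/-!
Project TU (helper57, helper78): existential formulas with three unknowns.  Statements of the parts.
-/

set_option autoImplicit false

namespace Pool.Agent.Helper57.TU

open MvPolynomial Set Pool.Agent.Q72.EG Pool.Agent.Helper57.NT Pool.Agent.Helper78.EC.Qn
open Pool.Agent.Helper78.SC Pool.Agent.Helper78.SC.Cov

/-- **S_ff** (part A): the closedness theorem for generic points in function fields, in one piece.
Proof: `Pool.Agent.Helper57.NT.Res3.res3` with `c = (0, 1)` (see the result file of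
`ClosednessInDimensionThree` for the arguments `three, bm, ...`), `I` = kernel of
`aeval (Sum.elim x y)`, `V` = the points of `G_3` on which `I` vanishes; denominators: `subst_poly`. -/
def S_ff : Prop := ∀ {E : Type} [Field E] [Algebra ℂ E] (x y : Fin 3 → E), (∀ l, y l ≠ 0) →
    AddFree x → (∀ m : Fin 3 → ℤ, m ≠ 0 → ∀ c : ℂ, mon m y ≠ algebraMap ℂ E c) →
    (∀ M : Matrix (Fin 3) (Fin 3) ℤ, ∃ J : Finset (Fin 3 ⊕ Fin 3),
      J.card = (M.map (Int.cast : ℤ → ℚ)).rank ∧ AlgebraicIndependent ℂ
        (fun j : J => (Sum.elim (fun i => dt (M i) x) (fun i => mon (M i) y) :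
          Fin 3 ⊕ Fin 3 → E) j)) → HasExp x y

/-- **S_strong** (part C): hulls of self-sufficient tuples are self-sufficient (strong) in `ℂ`.
Proof: if not, the `w` are dependent over `Fs E p.s` for a tight tuple `p.s` (`reach_finset`), and
`(p.s, w)` contradicts `SS E a`. -/
def S_strong : Prop := ∀ (E : IntermediateField ℚ ℂ) (_ : Countable E) (_ : HC E) (n : ℕ)
    (a : Fin n → ℂ), Ind E a → SS E a → ∀ (r : ℕ) (w : Fin r → ℂ), Ind (hull ((E : Set ℂ) ∪ range a)) w →
    ∃ J : Finset (Fin r ⊕ Fin r), J.card = r ∧
      AlgebraicIndependent (hull ((E : Set ℂ) ∪ range a)) (fun j : J => pt w j)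

/-- **S_dec** (part D): coordinates of a triple modulo a countable closed field.
Proof: `exists_ind`, common denominators, and new generic elements outside of the (countable) hull
of `F` and the elements chosen before to get exactly three. -/
def S_dec : Prop := ∀ (F : IntermediateField ℚ ℂ) (_ : Countable F) (_ : HC F) (z : Fin 3 → ℂ),
    ∃ (w f : Fin 3 → ℂ) (N : Matrix (Fin 3) (Fin 3) ℤ), Ind F w ∧ (∀ i, f i ∈ F) ∧
      ∀ i, z i = dt (N i) w + f i

/-- **S_tensor** (part B, helper57): base change from an algebraically closed field -/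
def S_tensor : Prop := ∀ (k : IntermediateField ℚ ℂ) (_ : ∀ w : ℂ, IsAlgebraic k w → w ∈ k)
    (σ : k →+* ℂ) (A : Subalgebra k ℂ) (_ : A.FG),
    ∃ (E : Type) (_ : Field E) (_ : Algebra ℂ E) (ι : A →+* E),
      (∀ c : k, ι (algebraMap k A c) = algebraMap ℂ E (σ c)) ∧
      ∀ (J : Type) (u : J → A), AlgebraicIndependent k u → AlgebraicIndependent ℂ (fun j => ι (u j))

/-- the system `S` has a solution -/
def Sol (F : IntermediateField ℚ ℂ) (S : Set (MvPolynomial (Fin 3 ⊕ Fin 3) F)) : Prop :=
  ∃ z : Fin 3 → ℂ, ∀ P ∈ S, aeval (pt z) P = 0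

/-- **S_move** (part F, helper57): strong fields and isomorphisms -/
def S_move : Prop := ∀ (F F' : IntermediateField ℚ ℂ) (_ : Countable F) (_ : HC F)
    (φ : F ≃+* F') (_ : ∀ z w : F, (w : ℂ) = Complex.exp z → (φ w : ℂ) = Complex.exp (φ z))
    (_ : ∀ (r : ℕ) (w : Fin r → ℂ), Ind F w → ∃ J : Finset (Fin r ⊕ Fin r), J.card = r ∧
      AlgebraicIndependent F (fun j : J => pt w j)) (S : Set (MvPolynomial (Fin 3 ⊕ Fin 3) F)),
    Sol F S → Sol F' (MvPolynomial.map (φ : F →+* F') '' S)

/- The parts:
A  theorem ff : S_ff                          (free)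
B  theorem tensor : S_tensor                  (helper57)
C  theorem strong : S_strong                  (helper78 ?)
D  theorem dec : S_dec                        (helper78 / free)
F  theorem move : S_ff → S_dec → S_tensor → S_move   (helper57)
R  the result file: isomorphisms of hulls over all B ⊆ E preserve `Sol` (restriction to B as in
   `Qn.restrict`), self-sufficient tuples, generic tuples (dimension 2n-2), all numbers outside E,
   first order formulas in the language with predicates `Sol`      (helper57 / helper78)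
-/

end Pool.Agent.Helper57.TU
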