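import Pool.Agent.Helper57.NT.Closed3
import Pool.Agent.Helper57.TU.Sheet

/-!
# The closedness theorem for generic points in function fields (part A)
-/

set_option autoImplicit false

namespace Pool.Agent.Helper57.TU

open MvPolynomial Pool.Agent.Q72.EG Pool.Agent.Helper57.NT

theorem ff : S_ff := by
  classical
  intro E _ _ x y hy hadd hmul hrot
  let I : Ideal (MvPolynomial (Fin 3 ⊕ Fin 3) ℂ) :=
    RingHom.ker (aeval (Sum.elim x y) : MvPolynomial (Fin 3 ⊕ Fin 3) ℂ →ₐ[ℂ] E)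
  have hI : I.IsPrime := RingHom.ker_isPrime _
  have hmem : ∀ g, g ∈ I ↔ aeval (Sum.elim x y) g = 0 := fun g => RingHom.mem_ker
  let V : Set (Fin 3 ⊕ Fin 3 → ℂ) := {p | (∀ f ∈ I, eval p f = 0) ∧ ∀ j : Fin 3, p (Sum.inr j) ≠ 0}
  have hpt : ∀ g, aeval (Sum.elim x y) g ≠ 0 → ∃ p ∈ V, eval p g ≠ 0 := by
    intro g hg
    obtain ⟨p, hp, hp2⟩ := Pool.Agent.Helper57.HT.exists_pt (ξ := Sum.elim x y)
      (g := g * ∏ l : Fin 3, X (Sum.inr l)) (by
        rw [map_mul, map_prod]
        refine mul_ne_zero hg (Finset.prod_ne_zero_iff.2 fun l _ => ?_)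
        rw [aeval_X]
        exact hy l)
    rw [map_mul, map_prod] at hp2
    refine ⟨p, ⟨fun f hf => hp f ((hmem f).1 hf), fun j hj => ?_⟩, left_ne_zero_of_mul hp2⟩
    apply right_ne_zero_of_mul hp2
    apply Finset.prod_eq_zero (Finset.mem_univ j)
    rw [eval_X]
    exact hj
  have hV : Res2.IsVariety I V := ⟨hI, rfl, by
    obtain ⟨p, hp, -⟩ := hpt 1 (by simp)
    exact ⟨p, hp⟩⟩
  have hsub : ∀ (N : Matrix (Fin 3) (Fin 3) ℤ) (g : MvPolynomial (Fin 3 ⊕ Fin 3) ℂ),
      aeval (Sum.elim (fun l => dt (N l) x) (fun l => mon (N l) y)) g ≠ 0 →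
      ∃ p ∈ V, eval (Res2.act N p) g ≠ 0 := by
    intro N g hg
    obtain ⟨K, g', hg'⟩ := subst_poly N g
    have h1 := hg' E x y hy
    obtain ⟨p, hp, hp2⟩ := hpt g' (by
      rw [h1]
      exact mul_ne_zero (pow_ne_zero _ (Finset.prod_ne_zero_iff.2 fun l _ => hy l)) hg)
    refine ⟨p, hp, fun h0 => hp2 ?_⟩
    have h2 := hg' ℂ (fun l => p (Sum.inl l)) (fun l => p (Sum.inr l)) hp.2
    simp only [MvPolynomial.aeval_eq_eval] at h2
    have h3 : (Sum.elim (fun l => p (Sum.inl l)) (fun l => p (Sum.inr l)) : Fin 3 ⊕ Fin 3 → ℂ) = p := by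
      funext j
      rcases j with j | j <;> rfl
    rw [h3] at h2
    have h4 : (Sum.elim (fun l => dt (N l) fun l => p (Sum.inl l))
        (fun l => mon (N l) fun l => p (Sum.inr l)) : Fin 3 ⊕ Fin 3 → ℂ) = Res2.act N p := by
      funext j
      rcases j with j | j <;> rfl
    rw [h4] at h2
    have h6 : eval (Res2.act N p) g = 0 := h0
    rw [h6, mul_zero] at h2
    exact h2
  have hfree : Res2.Free V := by
    constructor
    · intro m hm c
      obtain ⟨p, hp, hp2⟩ := hpt ((∑ j : Fin 3, C (m j : ℂ) * X (Sum.inl j)) - C c) (by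
        rw [map_sub, map_sum, MvPolynomial.algHom_C, sub_ne_zero]
        have h1 : ∑ j : Fin 3, aeval (Sum.elim x y) (C (m j : ℂ) * X (Sum.inl j)) = dt m x := by
          unfold dt
          refine Finset.sum_congr rfl fun j _ => ?_
          rw [map_mul, MvPolynomial.algHom_C, aeval_X, Sum.elim_inl, map_intCast]
        rw [h1]
        exact hadd m hm c)
      refine ⟨p, hp, fun h => hp2 ?_⟩
      rw [map_sub, map_sum, eval_C, sub_eq_zero, ← h]
      refine Finset.sum_congr rfl fun j _ => ?_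
      rw [map_mul, eval_C, eval_X]
    · intro m hm c
      obtain ⟨p, hp, hp2⟩ := hsub (fun _ => m) (X (Sum.inr 0) - C c) (by
        rw [map_sub, MvPolynomial.algHom_C, aeval_X, Sum.elim_inr, sub_ne_zero]
        exact hmul m hm c)
      refine ⟨p, hp, fun h => hp2 ?_⟩
      rw [map_sub, eval_C, eval_X, sub_eq_zero]
      exact h
  have hrot' : Res2.Rotund V := by
    intro M
    obtain ⟨J, hJ, hai⟩ := hrot M
    refine ⟨J, hJ, fun f hf hf0 => ?_⟩
    have h1 : aeval (Sum.elim (fun l => dt (M l) x) (fun l => mon (M l) y)) f = 0 := by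
      by_contra h
      obtain ⟨p, hp, hp2⟩ := hsub M f h
      exact hp2 (hf0 _ ⟨p, hp, rfl⟩)
    obtain ⟨f', rfl⟩ := MvPolynomial.exists_rename_eq_of_vars_subset_range f
      (fun j : J => (j : Fin 3 ⊕ Fin 3)) Subtype.val_injective (by
        intro j hj
        exact ⟨⟨j, hf hj⟩, rfl⟩)
    rw [MvPolynomial.aeval_rename] at h1
    have h2 : f' = 0 := hai (by rw [map_zero]; exact h1)
    rw [h2, map_zero]
  obtain ⟨z, u, hu, hz⟩ := closed3 I V hV hfree hrot' (Sum.elim 0 1) (fun i => one_ne_zero)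
  refine ⟨z, fun g hg => ?_⟩
  have h1 : Res2.ExpPoint z = u := by
    rw [hz]
    funext j
    rcases j with j | j
    · show u (Sum.inl j) + 0 = u (Sum.inl j)
      rw [add_zero]
    · show 1 * u (Sum.inr j) = u (Sum.inr j)
      rw [one_mul]
  have h2 : (Sum.elim z (fun l => Complex.exp (z l)) : Fin 3 ⊕ Fin 3 → ℂ) = u := h1
  rw [h2]
  exact hu.1 g ((hmem g).2 hg)

end Pool.Agent.Helper57.TU
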