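import Pool.Agent.Helper57.TU.Dom
import Pool.Agent.Helper57.TU.Sheet

/-!
# Base change from an algebraically closed field (part B)
-/

set_option autoImplicit false

namespace Pool.Agent.Helper57.TU

open MvPolynomial TensorProduct

section gen

variable {k : Type} [Field k] [IsAlgClosed k] {A L : Type} [CommRing A] [IsDomain A] [Algebra k A]
  [Algebra.FiniteType k A] [Field L] [Algebra k L]

theorem isDomain_LA : IsDomain (L ⊗[k] A) := by
  have h : IsDomain (A ⊗[k] L) := Dom.isDomain_tensor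
  exact (Algebra.TensorProduct.comm k L A).toMulEquiv.isDomain

/-- independence is preserved by base change -/
theorem algInd_tmul {J : Type} {u : J → A} (hu : AlgebraicIndependent k u) :
    AlgebraicIndependent L (fun j => (1 ⊗ₜ[k] u j : L ⊗[k] A)) := by
  have h1 : Function.Injective (aeval u : MvPolynomial J k →ₐ[k] A) := hu
  have h2 : Function.Injective (Algebra.TensorProduct.map (AlgHom.id L L) (aeval u : MvPolynomial J k →ₐ[k] A)) := by
    have := Module.Flat.lTensor_preserves_injective_linearMap (M := L)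
      (aeval u : MvPolynomial J k →ₐ[k] A).toLinearMap h1
    exact this
  have h3 : (aeval (fun j => (1 ⊗ₜ[k] u j : L ⊗[k] A)) : MvPolynomial J L →ₐ[L] L ⊗[k] A) =
      (Algebra.TensorProduct.map (AlgHom.id L L) (aeval u : MvPolynomial J k →ₐ[k] A)).comp
        (algebraTensorAlgEquiv (σ := J) k L).symm.toAlgHom := by
    apply MvPolynomial.algHom_ext
    intro j
    simp
  show Function.Injective (aeval (fun j => (1 ⊗ₜ[k] u j : L ⊗[k] A)) : MvPolynomial J L →ₐ[L] L ⊗[k] A)
  rw [h3]
  exact h2.comp (algebraTensorAlgEquiv (σ := J) k L).symm.injective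

end gen

/-- the complex numbers as an algebra over `k`, by `σ` -/
def Cs {k : IntermediateField ℚ ℂ} (_ : k →+* ℂ) : Type := ℂ

noncomputable instance {k : IntermediateField ℚ ℂ} (σ : k →+* ℂ) : Field (Cs σ) :=
  inferInstanceAs (Field ℂ)

noncomputable instance {k : IntermediateField ℚ ℂ} (σ : k →+* ℂ) : Algebra k (Cs σ) :=
  RingHom.toAlgebra (R := k) (S := Cs σ) σ

theorem isAlgClosed_of {k : IntermediateField ℚ ℂ} (hk : ∀ w : ℂ, IsAlgebraic k w → w ∈ k) :
    IsAlgClosed k := by
  apply IsAlgClosed.of_exists_root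
  intro p hp hirr
  obtain ⟨w, hw⟩ := IsAlgClosed.exists_aeval_eq_zero ℂ p (by
    have := hirr.degree_pos
    exact this.ne')
  have h1 : IsAlgebraic k w := ⟨p, hirr.ne_zero, hw⟩
  refine ⟨⟨w, hk w h1⟩, ?_⟩
  apply Subtype.ext
  have h2 : (algebraMap k ℂ) (Polynomial.eval ⟨w, hk w h1⟩ p) = Polynomial.aeval w p := by
    rw [← Polynomial.aeval_algebraMap_apply_eq_algebraMap_eval]
    rfl
  have h3 : (algebraMap k ℂ) (Polynomial.eval ⟨w, hk w h1⟩ p) = 0 := by rw [h2, hw]
  exact h3

theorem tensor : S_tensor := by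
  intro k hk σ A hA
  have hac : IsAlgClosed k := isAlgClosed_of hk
  have hft : Algebra.FiniteType k A := ⟨(Subalgebra.fg_top A).2 hA⟩
  have hdom : IsDomain (Cs σ ⊗[k] A) := isDomain_LA
  let E := FractionRing (Cs σ ⊗[k] A)
  refine ⟨E, inferInstance, (inferInstance : Algebra (Cs σ) E),
    (algebraMap (Cs σ ⊗[k] A) E).comp
      (Algebra.TensorProduct.includeRight : A →ₐ[k] Cs σ ⊗[k] A).toRingHom, ?_, ?_⟩
  · intro c
    show algebraMap (Cs σ ⊗[k] A) E (Algebra.TensorProduct.includeRight (algebraMap k A c)) =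
      algebraMap (Cs σ) E (σ c)
    rw [IsScalarTower.algebraMap_apply (Cs σ) (Cs σ ⊗[k] A) E, AlgHom.commutes,
      IsScalarTower.algebraMap_apply k (Cs σ) (Cs σ ⊗[k] A)]
    rfl
  · intro J u hu
    have h1 := algInd_tmul (L := Cs σ) hu
    have h2 := h1.map' (f := IsScalarTower.toAlgHom (Cs σ) (Cs σ ⊗[k] A) E)
      (IsFractionRing.injective (Cs σ ⊗[k] A) E)
    exact h2

end Pool.Agent.Helper57.TU
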