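import Pool.Agent.Helper57.TU.Move
import Pool.Agent.Helper57.TU.Tensor
import Pool.Agent.Helper57.TU.FF
import Pool.Agent.Helper82.TU.Dec
import Pool.Agent.Helper78.EC.QnS
import Pool.Agent.Helper78.EC.QnH

/-!
# Isomorphisms of hulls preserve the solvability of systems in three unknowns
-/

set_option autoImplicit false

namespace Pool.Agent.Helper57.TU

open MvPolynomial Set Pool.Agent.Helper78.EC.Qn
open Pool.Agent.Helper78.SC Pool.Agent.Helper78.SC.Cov
open Pool.Agent.Helper78.EC.Closure Pool.Agent.Helper78.EC.Generic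
open Pool.Agent.Helper78.EC.Qm (cb)

theorem strong : S_strong := fun _ hc hE _ _ hi ha _ _ hw => Pool.Agent.Helper78.EC.Qn.strong hc hE hi ha hw

theorem dec : S_dec := fun F hc _ z => Pool.Agent.Helper82.TU.dec_core F hc z

theorem mv : S_move := move ff dec tensor

/-- the system `S`, with coefficients mapped by `σ`, has a solution -/
def Solv {F : IntermediateField ℚ ℂ} (σ : F →+* ℂ) (S : Set (MvPolynomial (Fin 3 ⊕ Fin 3) F)) :
    Prop := ∃ z : Fin 3 → ℂ, ∀ P ∈ S, eval₂ σ (Sum.elim z (fun i => Complex.exp (z i))) P = 0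

theorem solv_map {F G : IntermediateField ℚ ℂ} (f : F →+* G) (σ : G →+* ℂ)
    (S : Set (MvPolynomial (Fin 3 ⊕ Fin 3) F)) :
    Solv σ (MvPolynomial.map f '' S) ↔ Solv (σ.comp f) S := by
  unfold Solv
  refine exists_congr fun z => ?_
  rw [Set.forall_mem_image]
  refine forall₂_congr fun P _ => ?_
  rw [eval₂_map]

theorem sol_iff {F : IntermediateField ℚ ℂ} (S : Set (MvPolynomial (Fin 3 ⊕ Fin 3) F)) :
    Sol F S ↔ Solv (algebraMap F ℂ) S := Iff.rfl

/-- isomorphisms over `A` which preserve the solvability of systems -/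
def IsoT (A : Set ℂ) (F F' : IntermediateField ℚ ℂ) {n : ℕ} (a a' : Fin n → ℂ) : Prop :=
  ∃ φ : F ≃+* F', (∀ z : F, (z : ℂ) ∈ A → (φ z : ℂ) = z) ∧
    (∀ (z : F) (j : Fin n), (z : ℂ) = a j → (φ z : ℂ) = a' j) ∧
    (∀ z w : F, (w : ℂ) = Complex.exp z → (φ w : ℂ) = Complex.exp (φ z)) ∧
    ∀ S : Set (MvPolynomial (Fin 3 ⊕ Fin 3) F),
      Solv (algebraMap F ℂ) S ↔ Solv ((algebraMap F' ℂ).comp (φ : F →+* F')) S

variable {E : IntermediateField ℚ ℂ} {n : ℕ} {a a' : Fin n → ℂ}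

theorem isoT_of_iso (hc : Countable E) (hE : HC E) (hi : Ind E a) (ha : SS E a) (hi' : Ind E a')
    (ha' : SS E a')
    (h : Iso E (hull ((E : Set ℂ) ∪ range a)) (hull ((E : Set ℂ) ∪ range a')) a a') :
    IsoT (E : Set ℂ) (hull ((E : Set ℂ) ∪ range a)) (hull ((E : Set ℂ) ∪ range a')) a a' := by
  obtain ⟨φ, h1, h2, h3⟩ := h
  have hcE : (E : Set ℂ).Countable := Set.countable_coe_iff.1 hc
  have hcH := countable_hull (hcE.union (countable_range a))
  have hcH' := countable_hull (hcE.union (countable_range a'))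
  have h3' : ∀ z w : hull ((E : Set ℂ) ∪ range a'), (w : ℂ) = Complex.exp z →
      (φ.symm w : ℂ) = Complex.exp (φ.symm z) := by
    intro z w hw
    have h4 := h3 (φ.symm z) ⟨Complex.exp (φ.symm z), (hc_hull _).exp_mem _ (φ.symm z).2⟩ rfl
    rw [RingEquiv.apply_symm_apply] at h4
    have h5 : φ ⟨Complex.exp (φ.symm z), (hc_hull _).exp_mem _ (φ.symm z).2⟩ = w :=
      Subtype.ext (h4.trans hw.symm)
    rw [← h5, RingEquiv.symm_apply_apply]
  refine ⟨φ, h1, h2, h3, fun S => ⟨fun h => ?_, fun h => ?_⟩⟩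
  · have h4 := mv _ _ hcH (hc_hull _) φ h3 (fun r w hw => strong E hc hE n a hi ha r w hw) S h
    rw [sol_iff, solv_map] at h4
    exact h4
  · rw [← solv_map, ← sol_iff] at h
    have h4 := mv _ _ hcH' (hc_hull _) φ.symm h3'
      (fun r w hw => strong E hc hE n a' hi' ha' r w hw) _ h
    rw [sol_iff, solv_map, solv_map] at h4
    have h5 : ((algebraMap (hull ((E : Set ℂ) ∪ range a)) ℂ).comp
        (φ.symm : hull ((E : Set ℂ) ∪ range a') →+* hull ((E : Set ℂ) ∪ range a))).comp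
        (φ : hull ((E : Set ℂ) ∪ range a) →+* hull ((E : Set ℂ) ∪ range a')) =
        algebraMap (hull ((E : Set ℂ) ∪ range a)) ℂ := by
      ext z
      show ((φ.symm (φ z) : hull ((E : Set ℂ) ∪ range a)) : ℂ) = z
      rw [RingEquiv.symm_apply_apply]
    rw [h5] at h4
    exact h4

/-- **Restriction of isomorphisms.** -/
theorem restrictT {A : Set ℂ} (hA : A ⊆ E) {F F' : IntermediateField ℚ ℂ} (hFc : HC F)
    (hF'c : HC F') (hEF : E ≤ F) (hEF' : E ≤ F') (haF : ∀ j, a j ∈ F) (haF' : ∀ j, a' j ∈ F')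
    (h : IsoT (E : Set ℂ) F F' a a') : IsoT A (hull (A ∪ range a)) (hull (A ∪ range a')) a a' := by
  obtain ⟨φ, h1, h2, h3, h0⟩ := h
  have hle : hull (A ∪ range a) ≤ F := hull_le hFc (by
    rintro x (hx | ⟨j, rfl⟩)
    · exact hEF (hA hx)
    · exact haF j)
  have hle' : hull (A ∪ range a') ≤ F' := hull_le hF'c (by
    rintro x (hx | ⟨j, rfl⟩)
    · exact hEF' (hA hx)
    · exact haF' j)
  have h1' : ∀ z : F', (z : ℂ) ∈ E → (φ.symm z : ℂ) = z := by
    intro z hz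
    have hzF : (z : ℂ) ∈ F := hEF hz
    have h4 : φ ⟨z, hzF⟩ = z := Subtype.ext (h1 ⟨z, hzF⟩ hz)
    rw [← h4, RingEquiv.symm_apply_apply]
    exact (h1 ⟨z, hzF⟩ hz).symm
  have h2' : ∀ (z : F') (j : Fin n), (z : ℂ) = a' j → (φ.symm z : ℂ) = a j := by
    intro z j hz
    have h4 : φ ⟨a j, haF j⟩ = z := Subtype.ext ((h2 ⟨a j, haF j⟩ j rfl).trans hz.symm)
    rw [← h4, RingEquiv.symm_apply_apply]
  have h3' : ∀ z w : F', (w : ℂ) = Complex.exp z → (φ.symm w : ℂ) = Complex.exp (φ.symm z) := by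
    intro z w hw
    have h4 := h3 (φ.symm z) ⟨Complex.exp (φ.symm z), hFc.exp_mem _ (φ.symm z).2⟩ rfl
    rw [RingEquiv.apply_symm_apply] at h4
    have h5 : φ ⟨Complex.exp (φ.symm z), hFc.exp_mem _ (φ.symm z).2⟩ = w :=
      Subtype.ext (h4.trans hw.symm)
    rw [← h5, RingEquiv.symm_apply_apply]
  have hmap : ∀ z : F, (z : ℂ) ∈ hull (A ∪ range a) → (φ z : ℂ) ∈ hull (A ∪ range a') := by
    intro z hz
    have h4 : hull (A ∪ range a) ≤ prm φ (hull (A ∪ range a')) := by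
      apply hull_le (hc_prm hFc φ h3 (hc_hull _))
      rintro x (hx | ⟨j, rfl⟩)
      · refine ⟨hEF (hA hx), ?_⟩
        rw [h1 _ (hA hx)]
        exact subset_hull _ (Or.inl hx)
      · refine ⟨haF j, ?_⟩
        rw [h2 _ j rfl]
        exact subset_hull _ (Or.inr ⟨j, rfl⟩)
    exact (h4 hz).2
  have hmap' : ∀ z : F', (z : ℂ) ∈ hull (A ∪ range a') → (φ.symm z : ℂ) ∈ hull (A ∪ range a) := by
    intro z hz
    have h4 : hull (A ∪ range a') ≤ prm φ.symm (hull (A ∪ range a)) := by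
      apply hull_le (hc_prm hF'c φ.symm h3' (hc_hull _))
      rintro x (hx | ⟨j, rfl⟩)
      · refine ⟨hEF' (hA hx), ?_⟩
        rw [h1' _ (hA hx)]
        exact subset_hull _ (Or.inl hx)
      · refine ⟨haF' j, ?_⟩
        rw [h2' _ j rfl]
        exact subset_hull _ (Or.inr ⟨j, rfl⟩)
    exact (h4 hz).2
  let ψ : hull (A ∪ range a) ≃+* hull (A ∪ range a') :=
    { toFun := fun z => ⟨φ ⟨z, hle z.2⟩, hmap _ z.2⟩
      invFun := fun z => ⟨φ.symm ⟨z, hle' z.2⟩, hmap' _ z.2⟩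
      left_inv := fun z => by
        apply Subtype.ext
        change ((φ.symm ⟨φ ⟨z, hle z.2⟩, _⟩ : F) : ℂ) = z
        rw [show (⟨((φ ⟨z, hle z.2⟩ : F') : ℂ), hle' (hmap _ z.2)⟩ : F') = φ ⟨z, hle z.2⟩ from rfl,
          RingEquiv.symm_apply_apply]
      right_inv := fun z => by
        apply Subtype.ext
        change ((φ ⟨φ.symm ⟨z, hle' z.2⟩, _⟩ : F') : ℂ) = z
        rw [show (⟨((φ.symm ⟨z, hle' z.2⟩ : F) : ℂ), hle (hmap' _ z.2)⟩ : F) =
          φ.symm ⟨z, hle' z.2⟩ from rfl, RingEquiv.apply_symm_apply]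
      map_mul' := fun x y => by
        apply Subtype.ext
        change ((φ (⟨x, hle x.2⟩ * ⟨y, hle y.2⟩) : F') : ℂ) = _
        rw [map_mul]
        rfl
      map_add' := fun x y => by
        apply Subtype.ext
        change ((φ (⟨x, hle x.2⟩ + ⟨y, hle y.2⟩) : F') : ℂ) = _
        rw [map_add]
        rfl }
  refine ⟨ψ, fun z hz => h1 _ (hA hz), fun z j hz => h2 _ j hz, fun z w hw => h3 _ _ hw, ?_⟩
  intro S
  let inc : hull (A ∪ range a) →+* F :=
    { toFun := fun z => ⟨z, hle z.2⟩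
      map_one' := rfl
      map_mul' := fun _ _ => rfl
      map_zero' := rfl
      map_add' := fun _ _ => rfl }
  have h6 := h0 (MvPolynomial.map inc '' S)
  rw [solv_map, solv_map] at h6
  exact h6

/-- the isomorphism follows combinations -/
theorem iso_combT {m : ℕ}
    (h : IsoT (E : Set ℂ) (hull ((E : Set ℂ) ∪ range a)) (hull ((E : Set ℂ) ∪ range a')) a a')
    (q : Fin m → Fin n → ℚ) (e : Fin m → E) :
    IsoT (E : Set ℂ) (hull ((E : Set ℂ) ∪ range (fun j => cb a (q j) + e j)))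
      (hull ((E : Set ℂ) ∪ range (fun j => cb a' (q j) + e j)))
      (fun j => cb a (q j) + e j) (fun j => cb a' (q j) + e j) := by
  have ha : ∀ j, a j ∈ hull ((E : Set ℂ) ∪ range a) := fun j => subset_hull _ (Or.inr ⟨j, rfl⟩)
  have ha' : ∀ j, a' j ∈ hull ((E : Set ℂ) ∪ range a') := fun j => subset_hull _ (Or.inr ⟨j, rfl⟩)
  have he : ∀ x ∈ E, x ∈ hull ((E : Set ℂ) ∪ range a) := fun _ hx => subset_hull _ (Or.inl hx)
  have he' : ∀ x ∈ E, x ∈ hull ((E : Set ℂ) ∪ range a') := fun _ hx => subset_hull _ (Or.inl hx)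
  have hq : ∀ (G : IntermediateField ℚ ℂ) (b : Fin n → ℂ), (∀ j, b j ∈ G) → ∀ r, cb b r ∈ G := by
    intro G b hb r
    unfold cb
    exact sum_mem fun i _ => mul_mem (G.algebraMap_mem (r i)) (hb i)
  refine restrictT (E := E) (A := (E : Set ℂ)) subset_rfl (hc_hull _) (hc_hull _) he he'
    (fun j => add_mem (hq _ _ ha _) (he _ (e j).2))
    (fun j => add_mem (hq _ _ ha' _) (he' _ (e j).2)) ?_
  obtain ⟨φ, h1, h2, h3, h0⟩ := h
  refine ⟨φ, h1, fun z j hz => ?_, h3, h0⟩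
  have h4 : z = (∑ i, ((q j i : ℚ) : hull ((E : Set ℂ) ∪ range a)) * ⟨a i, ha i⟩) +
      ⟨e j, he _ (e j).2⟩ := by
    apply Subtype.ext
    rw [hz]
    unfold cb
    push_cast
    rfl
  rw [h4, map_add, map_sum]
  have h5 : (φ ⟨e j, he _ (e j).2⟩ : ℂ) = e j := h1 _ (e j).2
  have h6 : ∀ i, (φ (((q j i : ℚ) : hull ((E : Set ℂ) ∪ range a)) * ⟨a i, ha i⟩) : ℂ) =
      (q j i : ℂ) * a' i := by
    intro i
    rw [map_mul, map_ratCast]
    have h7 : (φ ⟨a i, ha i⟩ : ℂ) = a' i := h2 _ i rfl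
    push_cast
    rw [h7]
  unfold cb
  push_cast
  rw [h5]
  congr 1
  exact Finset.sum_congr rfl (fun i _ => h6 i)

/-- **Countably many types of tuples.** -/
theorem countable_typesT (hc : Countable E) (hE : HC E)
    (hsch : ∀ (k : ℕ) (z : Fin k → ℂ), Ind E z → k ≤ Low.R E (pt z)) (m : ℕ) :
    ∃ T : Set (Fin m → ℂ), T.Countable ∧ ∀ b : Fin m → ℂ, ∃ b' ∈ T,
      IsoT (E : Set ℂ) (hull ((E : Set ℂ) ∪ range b)) (hull ((E : Set ℂ) ∪ range b')) b b' := by
  choose C hC1 hC2 hC3 using fun n => countable_types hc hE n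
  have hCc : ∀ n, Countable (C n) := fun n => (hC1 n).to_subtype
  let P := Σ n : ℕ, C n × (Fin m → Fin n → ℚ) × (Fin m → E)
  let g : P → (Fin m → ℂ) := fun p j => cb (p.2.1 : Fin p.1 → ℂ) (p.2.2.1 j) + p.2.2.2 j
  refine ⟨range g, countable_range g, fun b => ?_⟩
  obtain ⟨n, a, ha1, ha2, ha3⟩ := exists_SS hsch b
  obtain ⟨a', ha', hs⟩ := hC3 n a ha1 ha2
  choose q hq using ha3
  have h1 := iso_combT (isoT_of_iso hc hE ha1 ha2 (hC2 n a' ha').1 (hC2 n a' ha').2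
    (iso hc hE ha1 ha2 (hC2 n a' ha').2 hs)) q (fun j => ⟨_, hq j⟩)
  have h2 : (fun j => cb a (q j) + ((⟨b j - cb a (q j), hq j⟩ : E) : ℂ)) = b := by
    funext j
    change cb a (q j) + (b j - cb a (q j)) = b j
    ring
  rw [h2] at h1
  exact ⟨_, ⟨⟨n, ⟨a', ha'⟩, q, fun j => ⟨_, hq j⟩⟩, rfl⟩, h1⟩

theorem restrictT' {A : Set ℂ} (hA : A ⊆ E)
    (h : IsoT (E : Set ℂ) (hull ((E : Set ℂ) ∪ range a)) (hull ((E : Set ℂ) ∪ range a')) a a') :
    IsoT A (hull (A ∪ range a)) (hull (A ∪ range a')) a a' :=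
  restrictT hA (hc_hull _) (hc_hull _) (fun _ hx => subset_hull _ (Or.inl hx))
    (fun _ hx => subset_hull _ (Or.inl hx)) (fun j => subset_hull _ (Or.inr ⟨j, rfl⟩))
    (fun j => subset_hull _ (Or.inr ⟨j, rfl⟩)) h

/-- generic tuples -/
theorem iso_genT {K : IntermediateField ℚ ℂ} (hK : Countable K) {t t' : Fin n → ℂ} (ht : Gen K t)
    (ht' : Gen K t') : IsoT (ecl K : Set ℂ) (hull ((ecl K : Set ℂ) ∪ range t))
      (hull ((ecl K : Set ℂ) ∪ range t')) t t' :=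
  isoT_of_iso (Pool.Agent.Helper78.EC.Closure.countable hK) (hc_ecl K) (Pool.Agent.Helper78.EC.Qn.gen_ind ht) (ss_gen ht) (Pool.Agent.Helper78.EC.Qn.gen_ind ht')
    (ss_gen ht') (iso_gen hK ht ht')

end Pool.Agent.Helper57.TU
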