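import Pool.Agent.Helper57.TU.Sheet
import Pool.Agent.Helper57.NT.Uni

/-!
# Solutions of systems in three unknowns are moved by isomorphisms of strong fields (part F)
-/

set_option autoImplicit false

namespace Pool.Agent.Helper57.TU

open MvPolynomial Set Pool.Agent.Q72.EG Pool.Agent.Helper57.NT Pool.Agent.Helper78.EC.Qn
open Pool.Agent.Helper78.SC Pool.Agent.Helper78.SC.Cov Pool.Agent.Helper78.EC.Qm

/-- the shift of the variables -/
noncomputable def shift (f : Fin 3 → ℂ) : MvPolynomial (Fin 3 ⊕ Fin 3) ℂ →ₐ[ℂ]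
    MvPolynomial (Fin 3 ⊕ Fin 3) ℂ :=
  aeval (Sum.elim (fun i => X (Sum.inl i) + C (f i)) (fun i => C (Complex.exp (f i)) * X (Sum.inr i)))

theorem aeval_shift (f : Fin 3 → ℂ) {K : Type} [Field K] [Algebra ℂ K] (x y : Fin 3 → K)
    (g : MvPolynomial (Fin 3 ⊕ Fin 3) ℂ) : aeval (Sum.elim x y) (shift f g) =
    aeval (Sum.elim (fun i => x i + algebraMap ℂ K (f i))
      (fun i => algebraMap ℂ K (Complex.exp (f i)) * y i)) g := by
  have h : (aeval (Sum.elim x y)).comp (shift f) = (aeval (Sum.elim (fun i => x i + algebraMap ℂ K (f i))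
      (fun i => algebraMap ℂ K (Complex.exp (f i)) * y i)) :
        MvPolynomial (Fin 3 ⊕ Fin 3) ℂ →ₐ[ℂ] K) := by
    apply MvPolynomial.algHom_ext
    rintro (i | i)
    · simp [shift]
    · simp [shift]
  exact DFunLike.congr_fun h g

/-- rows of maximal rank -/
theorem rows (M : Matrix (Fin 3) (Fin 3) ℤ) : ∃ a : Fin ((M.map (Int.cast : ℤ → ℚ)).rank) → Fin 3,
    Function.Injective a ∧ LinearIndependent ℚ (fun i l => (M (a i) l : ℚ)) := by
  obtain ⟨κ, a, h1, h2, h3⟩ := exists_linearIndependent' ℚ (fun i l => (M i l : ℚ) : Fin 3 → Fin 3 → ℚ)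
  have hfin : Finite κ := Finite.of_injective a h1
  have : Fintype κ := Fintype.ofFinite κ
  have h4 : Fintype.card κ = (M.map (Int.cast : ℤ → ℚ)).rank := by
    rw [Matrix.rank_eq_finrank_span_row, ← finrank_span_eq_card h3, h2]
    rfl
  let e : κ ≃ Fin ((M.map (Int.cast : ℤ → ℚ)).rank) := (Fintype.equivFinOfCardEq h4)
  refine ⟨a ∘ e.symm, h1.comp e.symm.injective, ?_⟩
  exact h3.comp e.symm e.symm.injective

theorem cb_eq_dt {n : ℕ} (w : Fin n → ℂ) (m : Fin n → ℤ) : cb w (fun i => (m i : ℚ)) = dt m w := by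
  unfold cb dt
  refine Finset.sum_congr rfl fun i _ => ?_
  push_cast
  rfl

section alg

variable {F : IntermediateField ℚ ℂ} {w : Fin 3 → ℂ}

/-- the algebra generated by the coordinates -/
noncomputable def Al (F : IntermediateField ℚ ℂ) (w : Fin 3 → ℂ) : Subalgebra F ℂ :=
  Algebra.adjoin F (range (Sum.elim w (Sum.elim (fun i => Complex.exp (w i))
    (fun i => Complex.exp (-w i)))))

theorem al_fg : (Al F w).FG :=
  ⟨(Set.finite_range _).toFinset, by rw [Set.Finite.coe_toFinset]; rfl⟩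

theorem w_mem (i : Fin 3) : w i ∈ Al F w := Algebra.subset_adjoin ⟨Sum.inl i, rfl⟩

theorem e_mem (i : Fin 3) : Complex.exp (w i) ∈ Al F w :=
  Algebra.subset_adjoin ⟨Sum.inr (Sum.inl i), rfl⟩

theorem en_mem (i : Fin 3) : Complex.exp (-w i) ∈ Al F w :=
  Algebra.subset_adjoin ⟨Sum.inr (Sum.inr i), rfl⟩

/-- the exponentials as units -/
noncomputable def wu (i : Fin 3) : (Al F w)ˣ where
  val := ⟨Complex.exp (w i), e_mem i⟩
  inv := ⟨Complex.exp (-w i), en_mem i⟩
  val_inv := Subtype.ext (by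
    show Complex.exp (w i) * Complex.exp (-w i) = 1
    rw [← Complex.exp_add, add_neg_cancel, Complex.exp_zero])
  inv_val := Subtype.ext (by
    show Complex.exp (-w i) * Complex.exp (w i) = 1
    rw [← Complex.exp_add, neg_add_cancel, Complex.exp_zero])

noncomputable def D (m : Fin 3 → ℤ) : Al F w := ∑ l, (m l : Al F w) * ⟨w l, w_mem l⟩

noncomputable def Mn (m : Fin 3 → ℤ) : Al F w := ((∏ l, wu l ^ m l : (Al F w)ˣ) : Al F w)

theorem map_D {K : Type} [Field K] (ψ : Al F w →+* K) (m : Fin 3 → ℤ) :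
    ψ (D m) = dt m (fun i => ψ ⟨w i, w_mem i⟩) := by
  unfold D dt
  rw [map_sum]
  refine Finset.sum_congr rfl fun l _ => ?_
  rw [map_mul, map_intCast]

theorem map_Mn {K : Type} [Field K] (ψ : Al F w →+* K) (m : Fin 3 → ℤ) :
    ψ (Mn m) = mon m (fun i => ψ ⟨Complex.exp (w i), e_mem i⟩) := by
  unfold Mn mon
  have h : ψ ((∏ l, wu l ^ m l : (Al F w)ˣ) : Al F w) =
      ((Units.map (ψ : Al F w →* K) (∏ l, wu l ^ m l) : Kˣ) : K) := rfl
  rw [h, map_prod, Units.coe_prod]
  refine Finset.prod_congr rfl fun l _ => ?_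
  rw [map_zpow, Units.val_zpow_eq_zpow_val]
  rfl

theorem coe_D (m : Fin 3 → ℤ) : ((D m : Al F w) : ℂ) = dt m w :=
  map_D (Al F w).val.toRingHom m

theorem coe_Mn (m : Fin 3 → ℤ) : ((Mn m : Al F w) : ℂ) = Complex.exp (dt m w) := by
  rw [exp_dt]
  exact map_Mn (Al F w).val.toRingHom m

end alg

theorem move (ff : S_ff) (dec : S_dec) (tensor : S_tensor) : S_move := by
  classical
  intro F F' hc hF φ hφ hstr S ⟨z, hz⟩
  obtain ⟨w, f, N, hw, hf, hzw⟩ := dec F hc hF z
  let σ : F →+* ℂ := (algebraMap F' ℂ).comp (φ : F →+* F')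
  obtain ⟨E, _, _, ι, hι, hind⟩ := tensor F hF.cl σ (Al F w) al_fg
  let x : Fin 3 → E := fun i => ι ⟨w i, w_mem i⟩
  let y : Fin 3 → E := fun i => ι ⟨Complex.exp (w i), e_mem i⟩
  have hy : ∀ l, y l ≠ 0 := fun l => (Units.map (ι : Al F w →* E) (wu l)).ne_zero
  have hxD : ∀ m, ι (D m) = dt m x := fun m => map_D ι m
  have hyM : ∀ m, ι (Mn m) = mon m y := fun m => map_Mn ι m
  -- elements outside of `F` are transcendental
  have hL : ∀ u : Al F w, (u : ℂ) ∉ F → ∀ c : ℂ, ι u ≠ algebraMap ℂ E c := by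
    intro u hu c hc'
    have h1 : AlgebraicIndependent F (fun _ : Unit => u) := by
      rw [algebraicIndependent_unique_type_iff]
      intro h
      exact hu (hF.cl _ (h.algHom (Al F w).val))
    have h2 := hind Unit _ h1
    rw [algebraicIndependent_unique_type_iff] at h2
    apply h2
    show IsAlgebraic ℂ (ι u)
    rw [hc']
    exact isAlgebraic_algebraMap c
  have hdF : ∀ m : Fin 3 → ℤ, m ≠ 0 → dt m w ∉ F := by
    intro m hm h
    rw [← cb_eq_dt] at h
    have h1 := hw _ h
    apply hm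
    funext i
    have h2 := congrFun h1 i
    simpa using h2
  have hadd : AddFree x := by
    intro m hm a ha
    refine hL (D m) ?_ a (by rw [hxD, ha])
    rw [coe_D]
    exact hdF m hm
  have hmul : ∀ m : Fin 3 → ℤ, m ≠ 0 → ∀ c : ℂ, mon m y ≠ algebraMap ℂ E c := by
    intro m hm a ha
    refine hL (Mn m) ?_ a (by rw [hyM, ha])
    rw [coe_Mn]
    exact fun h => hdF m hm (hF.log_mem h)
  have hrot : ∀ M : Matrix (Fin 3) (Fin 3) ℤ, ∃ J : Finset (Fin 3 ⊕ Fin 3),
      J.card = (M.map (Int.cast : ℤ → ℚ)).rank ∧ AlgebraicIndependent ℂ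
        (fun j : J => (Sum.elim (fun i => dt (M i) x) (fun i => mon (M i) y) :
          Fin 3 ⊕ Fin 3 → E) j) := by
    intro M
    obtain ⟨a, ha, hli⟩ := rows M
    let u : Fin ((M.map (Int.cast : ℤ → ℚ)).rank) → ℂ := fun i => dt (M (a i)) w
    have hu : Ind F u := by
      intro q hq
      have h1 : cb u q = cb w (fun l => ∑ i, q i * (M (a i) l : ℚ)) := by
        unfold cb
        simp only [u, dt, Finset.mul_sum]
        rw [Finset.sum_comm]
        refine Finset.sum_congr rfl fun l _ => ?_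
        push_cast
        rw [Finset.sum_mul]
        refine Finset.sum_congr rfl fun i _ => ?_
        ring
      rw [h1] at hq
      have h2 := hw _ hq
      rw [Fintype.linearIndependent_iff] at hli
      funext i
      apply hli q
      funext l
      have h3 := congrFun h2 l
      simpa [Finset.sum_apply] using h3
    obtain ⟨J', hJ', hai⟩ := hstr _ u hu
    let U : Fin ((M.map (Int.cast : ℤ → ℚ)).rank) ⊕ Fin ((M.map (Int.cast : ℤ → ℚ)).rank) → Al F w :=
      Sum.elim (fun i => D (M (a i))) (fun i => Mn (M (a i)))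
    have hU : ∀ j, ((U j : Al F w) : ℂ) = pt u j := by
      rintro (i | i)
      · exact coe_D _
      · exact coe_Mn _
    have hai2 : AlgebraicIndependent F (fun j : J' => U j) := by
      apply AlgebraicIndependent.of_comp (Al F w).val
      have h1 : ((Al F w).val ∘ fun j : J' => U j) = fun j : J' => pt u j := by
        funext j
        exact hU j
      rw [h1]
      exact hai
    have hai3 := hind J' _ hai2
    let em : Fin ((M.map (Int.cast : ℤ → ℚ)).rank) ⊕ Fin ((M.map (Int.cast : ℤ → ℚ)).rank) ↪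
        Fin 3 ⊕ Fin 3 := ⟨Sum.map a a, Sum.map_injective.2 ⟨ha, ha⟩⟩
    refine ⟨J'.map em, by rw [Finset.card_map, hJ'], ?_⟩
    have hr : ∀ j : J'.map em, ∃ j' : J', em j' = j := by
      intro j
      obtain ⟨j', h1, h2⟩ := Finset.mem_map.1 j.2
      exact ⟨⟨j', h1⟩, h2⟩
    choose r hr using hr
    have hrinj : Function.Injective r := by
      intro j j' h
      apply Subtype.ext
      rw [← hr j, ← hr j', h]
    have h4 := hai3.comp r hrinj
    have h5 : (fun j : J'.map em => (Sum.elim (fun i => dt (M i) x) (fun i => mon (M i) y) :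
        Fin 3 ⊕ Fin 3 → E) j) = (fun j : J' => ι (U j)) ∘ r := by
      funext j
      show _ = ι (U (r j))
      rw [← hr j]
      obtain ⟨i | i, hi⟩ := r j
      · exact (hxD _).symm
      · exact (hyM _).symm
    rw [h5]
    exact h4
  obtain ⟨w', hw'⟩ := ff x y hy hadd hmul hrot
  -- the solution
  let g : Fin 3 → ℂ := fun i => σ ⟨f i, hf i⟩
  have hg : ∀ i, Complex.exp (g i) = σ ⟨Complex.exp (f i), hF.exp_mem _ (hf i)⟩ := fun i =>
    (hφ ⟨f i, hf i⟩ ⟨Complex.exp (f i), hF.exp_mem _ (hf i)⟩ rfl).symm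
  refine ⟨fun i => dt (N i) w' + g i, ?_⟩
  rintro _ ⟨P, hP, rfl⟩
  have hP0 := hz P hP
  let Q : MvPolynomial (Fin 3 ⊕ Fin 3) ℂ := MvPolynomial.map σ P
  let Z : Fin 3 ⊕ Fin 3 → Al F w := Sum.elim (fun i => D (N i) + algebraMap F (Al F w) ⟨f i, hf i⟩)
    (fun i => algebraMap F (Al F w) ⟨Complex.exp (f i), hF.exp_mem _ (hf i)⟩ * Mn (N i))
  have hZ : ∀ j, ((Z j : Al F w) : ℂ) = pt z j := by
    rintro (i | i)
    · show ((D (N i) : Al F w) : ℂ) + f i = z i
      rw [coe_D, hzw]
    · show Complex.exp (f i) * ((Mn (N i) : Al F w) : ℂ) = Complex.exp (z i)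
      rw [coe_Mn, hzw, Complex.exp_add, mul_comm]
  have hZ0 : aeval Z P = 0 := by
    apply Subtype.ext
    have h1 : ((aeval Z P : Al F w) : ℂ) = aeval (fun j => ((Z j : Al F w) : ℂ)) P := by
      have := MvPolynomial.comp_aeval_apply Z (Al F w).val P
      exact this
    rw [h1, funext hZ]
    exact hP0
  have hE0 : aeval (Sum.elim (fun i => dt (N i) x + algebraMap ℂ E (g i))
      (fun i => algebraMap ℂ E (Complex.exp (g i)) * mon (N i) y)) Q = 0 := by
    have h1 : ι (aeval Z P) = 0 := by rw [hZ0, map_zero]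
    rw [MvPolynomial.aeval_def, ← MvPolynomial.coe_eval₂Hom, ← RingHom.comp_apply,
      MvPolynomial.comp_eval₂Hom, MvPolynomial.coe_eval₂Hom] at h1
    rw [MvPolynomial.aeval_def, MvPolynomial.eval₂_map, ← h1]
    have h2 : (algebraMap ℂ E).comp σ = ι.comp (algebraMap F (Al F w)) := by
      ext c
      exact (hι c).symm
    rw [h2]
    congr 1
    funext j
    rcases j with i | i
    · show dt (N i) x + algebraMap ℂ E (g i) = ι (D (N i) + algebraMap F (Al F w) ⟨f i, hf i⟩)
      rw [map_add, hxD, hι]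
    · show algebraMap ℂ E (Complex.exp (g i)) * mon (N i) y =
        ι (algebraMap F (Al F w) ⟨Complex.exp (f i), hF.exp_mem _ (hf i)⟩ * Mn (N i))
      rw [map_mul, hyM, hι, hg]
  rw [← aeval_shift] at hE0
  obtain ⟨K, g', hg'⟩ := subst_poly N (shift g Q)
  have h1 := hg' E x y hy
  rw [hE0, mul_zero] at h1
  have h2 := hw' g' h1
  have h3 := hg' ℂ w' (fun l => Complex.exp (w' l)) fun l => Complex.exp_ne_zero _
  simp only [MvPolynomial.aeval_eq_eval] at h3
  have h4 : eval (Sum.elim w' fun l => Complex.exp (w' l)) g' = 0 := h2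
  rw [h4] at h3
  have h5 := (mul_eq_zero.1 h3.symm).resolve_left
    (pow_ne_zero _ (Finset.prod_ne_zero_iff.2 fun l _ => Complex.exp_ne_zero _))
  have h6 := aeval_shift g (fun l => dt (N l) w') (fun l => mon (N l) fun l => Complex.exp (w' l)) Q
  rw [MvPolynomial.aeval_eq_eval] at h6
  have h7 := h6.symm.trans h5
  rw [MvPolynomial.aeval_def, MvPolynomial.eval₂_map]
  rw [MvPolynomial.aeval_def, MvPolynomial.eval₂_map] at h7
  have h8 : (Sum.elim (fun i => (fun l => dt (N l) w') i + algebraMap ℂ ℂ (g i)) (fun i =>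
      algebraMap ℂ ℂ (Complex.exp (g i)) * (fun l => mon (N l) fun l => Complex.exp (w' l)) i) :
      Fin 3 ⊕ Fin 3 → ℂ) = pt (fun i => dt (N i) w' + g i) := by
    funext j
    rcases j with i | i
    · rfl
    · show Complex.exp (g i) * (mon (N i) fun l => Complex.exp (w' l)) =
        Complex.exp (dt (N i) w' + g i)
      rw [Complex.exp_add, exp_dt, mul_comm]
  rw [h8] at h7
  exact h7

end Pool.Agent.Helper57.TU
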